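import Pool.Agent.H15.DL3

set_option autoImplicit false

namespace Pool.Agent.Results.MP_8c175f_gt.Counterexample

/-- The closure of every discrete subset is Lindelof. -/
def DiscretelyLindelof (X : Type) [TopologicalSpace X] : Prop :=
  ∀ D : Set X, DiscreteTopology D → IsLindelof (closure D)

/-- Every open cover has a countable subfamily with dense union. -/
def WeaklyLindelof (X : Type) [TopologicalSpace X] : Prop :=
  ∀ 𝒰 : Set (Set X), (∀ U ∈ 𝒰, IsOpen U) → ⋃₀ 𝒰 = Set.univ →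
    ∃ 𝒱 ⊆ 𝒰, 𝒱.Countable ∧ Dense (⋃₀ 𝒱)

theorem result : ∃ (X : Type) (_ : TopologicalSpace X), T2Space X ∧ DiscretelyLindelof X ∧
    ¬ WeaklyLindelof X := by
  refine ⟨H15.DL.XX, inferInstance, inferInstance, fun D hD => H15.DL.disc_lindelof hD,
    fun h => ?_⟩
  obtain ⟨𝒰, h1, h2, h3⟩ := H15.DL.not_weakly
  obtain ⟨𝒱, a, b, c⟩ := h 𝒰 h1 h2
  exact h3 𝒱 a b c

end Pool.Agent.Results.MP_8c175f_gt.Counterexample
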